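import Pool.Agent.T2H62.ChP

/-!
# Almost prime Cunningham chains of the first kind of exact length, started at primes: number and Poisson law

`c_h(n) = 2 ^ h (n + 1) - 1`. Let `J` be a finite set of places with `0 ∈ J` and at least two elements
(`J = {0, ..., k - 1}`, `H = k` for exact length `k`), and `y = X ^ (1/r)`. The number of the primes `n` of an interval
such that no `c_h(n)`, `h ∈ J`, has a prime factor `≤ y` and the other `c_h(n)`, `h ≤ H`, are composite has the
expected asymptotic value (for `X → ∞`, then `r → ∞`), and the number of the integers with the same pattern which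
follow such a prime closely has the Poisson law.
-/

set_option autoImplicit false

namespace Pool.Agent.Results.MP_77cbc6_nt.PoissonAfterPrimes

open Finset Filter

/-- the term `c_h(n) = 2 ^ h (n + 1) - 1` of the Cunningham sequence of the first kind which starts with `n` -/
def c (h n : ℕ) : ℕ := 2 ^ h * (n + 1) - 1

/-- no `c h n`, `h ∈ J`, has a prime factor `≤ y`, and no other `c h n` with `h ≤ H` is prime -/
def Chain (J : Finset ℕ) (H y n : ℕ) : Prop :=
  (∀ h ∈ J, ∀ p : ℕ, p.Prime → p ≤ y → ¬ p ∣ c h n) ∧ ∀ h : ℕ, h ≤ H → h ∉ J → ¬ (c h n).Prime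

/-- the number of the residue classes `x` modulo `p` with `p ∣ c h x` for some `h ∈ J` -/
noncomputable def omega (J : Finset ℕ) (p : ℕ) : ℕ := ((Icc 1 p).filter (fun x : ℕ => ∃ h ∈ J, p ∣ c h x)).card

/-- the product of `1 - ω(p) / p` over the primes `p ≤ y` -/
noncomputable def D (J : Finset ℕ) (y : ℕ) : ℝ :=
  ∏ p ∈ (range (y + 1)).filter Nat.Prime, (1 - (omega J p : ℝ) / p)

/-- the product of `(1 - ω(p) / p) / (1 - 1 / p)` over the primes `p ≤ y` -/
noncomputable def W (J : Finset ℕ) (y : ℕ) : ℝ :=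
  ∏ p ∈ (range (y + 1)).filter Nat.Prime, (1 - (omega J p : ℝ) / p) / (1 - 1 / (p : ℝ))

open Classical in
/-- the primes `n` of `(v, v + Y]` with `Chain J H y n` -/
noncomputable def Starts (J : Finset ℕ) (H y v Y : ℕ) : Finset ℕ :=
  (Ioc v (v + Y)).filter (fun n => n.Prime ∧ Chain J H y n)

open Classical in
/-- the number of the integers `m` in `(n, n + T]` with `Chain J H y m` -/
noncomputable def Next (J : Finset ℕ) (H y T n : ℕ) : ℕ := ((Ioc n (n + T)).filter (fun m => Chain J H y m)).card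

/-- For all large `r`, then all large `X`, `y = X ^ (1/r)` and all intervals `(v, v + Y]` in `[0, X]` with
`Y ≥ δ X`: there are `(1 + O(ε)) Y W(y) / log X` primes in `Starts`, and for `T D(y) ≤ x0` the number of the integers
`m` in `(n, n + T]` with the pattern has, for `n` in `Starts`, the Poisson law of mean `T D(y)`, up to `ε`. -/
theorem result (J : Finset ℕ) (h0 : 0 ∈ J) (hJ : 2 ≤ J.card) (H : ℕ) (δ x0 ε : ℝ) (hδ : 0 < δ) (hδ1 : δ ≤ 1)
    (hx0 : 0 ≤ x0) (hε : 0 < ε) (hε1 : ε ≤ 1) :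
    ∃ r0 : ℕ, 2 ≤ r0 ∧ ∀ r : ℕ, r0 ≤ r → ∀ᶠ X : ℕ in atTop, ∀ y : ℕ, y = ⌊(X : ℝ) ^ (1 / (r : ℝ))⌋₊ →
      0 < W J y ∧ ∀ v Y : ℕ, δ * X ≤ Y → v + Y ≤ X →
      |((Starts J H y v Y).card : ℝ) * Real.log X - Y * W J y| ≤ ε * (Y * W J y) ∧
      ∀ T : ℕ, T * D J y ≤ x0 → ∀ M : Finset ℕ,
      |(((Starts J H y v Y).filter (fun n => Next J H y T n ∈ M)).card : ℝ) -
          (Starts J H y v Y).card * ∑ j ∈ M, Real.exp (-(T * D J y)) * (T * D J y) ^ j / j.factorial| ≤
        ε * (Starts J H y v Y).card :=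
  Pool.Agent.T2H62.ChP.chainLaw (u := 1) (c := c) (Or.inl rfl) (fun h n hn => by
    have h1 : 1 ≤ 2 ^ h * (n + 1) := Nat.mul_pos (by positivity) (by omega)
    unfold c Pool.Agent.T2H62.ChX.cz
    rw [Nat.cast_sub h1]
    push_cast
    ring) h0 hJ H δ x0 ε hδ hδ1 hx0 hε hε1

end Pool.Agent.Results.MP_77cbc6_nt.PoissonAfterPrimes
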